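import Pool.Agent.Helper92.MM.Defs

/-! MM (MP_fb29e9_nt), block M9: moments of real order from the moments of even integral order. -/

open MeasureTheory Real Set Filter Topology

set_option autoImplicit false

namespace Pool.Agent.Helper43.MM

open Pool.Agent.Helper22.AE
open Pool.Agent.Helper22.AC (cntc)
open Pool.Agent.Helper60.AD
open Pool.Agent.Helper92.MM

theorem rpow_le_pow {y X p : ℝ} (hy : 0 ≤ y) (hX : 0 < X) (hp : 0 < p) {J : ℕ} (hJ : p ≤ 2 * J) :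
    y ^ p ≤ X ^ (p / 2) + X ^ (p / 2 - J) * y ^ (2 * J) := by
  have hXJ : X ^ (p / 2 - J) = X ^ (p / 2) / X ^ J := by
    rw [Real.rpow_sub hX, Real.rpow_natCast]
  have hz : 0 ≤ y ^ 2 / X := by positivity
  have h1 : y ^ p = X ^ (p / 2) * (y ^ 2 / X) ^ (p / 2) := by
    rw [← Real.mul_rpow hX.le hz, mul_div_cancel₀ _ hX.ne', ← Real.rpow_natCast y 2, ← Real.rpow_mul hy]
    congr 1
    push_cast
    ring
  have h2 : (y ^ 2 / X) ^ (p / 2) ≤ 1 + (y ^ 2 / X) ^ J := by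
    rcases le_total (y ^ 2 / X) 1 with h | h
    · have h3 := Real.rpow_le_one hz h (by positivity : 0 ≤ p / 2)
      have h4 : 0 ≤ (y ^ 2 / X) ^ J := pow_nonneg hz J
      linarith
    · have h3 : (y ^ 2 / X) ^ (p / 2) ≤ (y ^ 2 / X) ^ (J : ℝ) :=
        Real.rpow_le_rpow_of_exponent_le h (by linarith)
      rw [Real.rpow_natCast] at h3
      linarith
  have h3 : (y ^ 2 / X) ^ J = y ^ (2 * J) / X ^ J := by
    rw [div_pow, ← pow_mul]
  have h0 : 0 ≤ X ^ (p / 2) := Real.rpow_nonneg hX.le _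
  calc y ^ p = X ^ (p / 2) * (y ^ 2 / X) ^ (p / 2) := h1
    _ ≤ X ^ (p / 2) * (1 + (y ^ 2 / X) ^ J) := mul_le_mul_of_nonneg_left h2 h0
    _ = X ^ (p / 2) + X ^ (p / 2 - J) * y ^ (2 * J) := by
      rw [h3, hXJ]
      ring

theorem mom_real {H : ℝ → ℝ} (h : ∀ J : ℕ, ∃ C : ℝ, ∀ X : ℝ, 1 ≤ X → mom J H X ≤ ENNReal.ofReal (C * X ^ (1 + J))) {p : ℝ} (hp : 0 < p) :
    ∃ C : ℝ, ∀ X : ℝ, 1 ≤ X → ∫⁻ R in Icc X (2 * X), ⨆ c : ℝ × ℝ, ENNReal.ofReal (|cntc H c R - area H * R ^ 2| ^ p) ≤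
      ENNReal.ofReal (C * X ^ (1 + p / 2)) := by
  obtain ⟨J, hJ⟩ := exists_nat_ge (p / 2)
  obtain ⟨C, hC⟩ := h J
  refine ⟨1 + |C|, fun X hX => ?_⟩
  have hX0 : 0 < X := by linarith
  set a : ENNReal := ENNReal.ofReal (X ^ (p / 2)) with ha
  set b : ENNReal := ENNReal.ofReal (X ^ (p / 2 - J)) with hb
  have h1 : ∀ R : ℝ, (⨆ c : ℝ × ℝ, ENNReal.ofReal (|cntc H c R - area H * R ^ 2| ^ p)) ≤
      a + b * ⨆ c : ℝ × ℝ, ENNReal.ofReal (|cntc H c R - area H * R ^ 2| ^ (2 * J)) := by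
    intro R
    refine iSup_le fun c => ?_
    have h2 : ENNReal.ofReal (|cntc H c R - area H * R ^ 2| ^ (2 * J)) ≤
        ⨆ c : ℝ × ℝ, ENNReal.ofReal (|cntc H c R - area H * R ^ 2| ^ (2 * J)) :=
      le_iSup (fun c : ℝ × ℝ => ENNReal.ofReal (|cntc H c R - area H * R ^ 2| ^ (2 * J))) c
    refine le_trans ?_ (add_le_add le_rfl (mul_le_mul le_rfl h2 bot_le bot_le))
    rw [ha, hb, ← ENNReal.ofReal_mul (Real.rpow_nonneg hX0.le _),
      ← ENNReal.ofReal_add (Real.rpow_nonneg hX0.le _)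
        (mul_nonneg (Real.rpow_nonneg hX0.le _) (by positivity))]
    exact ENNReal.ofReal_le_ofReal (rpow_le_pow (abs_nonneg _) hX0 hp (by linarith))
  calc ∫⁻ R in Icc X (2 * X), ⨆ c : ℝ × ℝ, ENNReal.ofReal (|cntc H c R - area H * R ^ 2| ^ p)
      ≤ ∫⁻ R in Icc X (2 * X), (a + b * ⨆ c : ℝ × ℝ, ENNReal.ofReal (|cntc H c R - area H * R ^ 2| ^ (2 * J))) :=
        lintegral_mono fun R => h1 R
    _ = a * ENNReal.ofReal X + b * mom J H X := by
        rw [lintegral_add_left measurable_const, lintegral_const_mul' _ _ ENNReal.ofReal_ne_top,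
          lintegral_const, Measure.restrict_apply_univ, Real.volume_Icc, mom]
        congr 3
        ring
    _ ≤ a * ENNReal.ofReal X + b * ENNReal.ofReal (C * X ^ (1 + J)) :=
        add_le_add le_rfl (mul_le_mul le_rfl (hC X hX) bot_le bot_le)
    _ ≤ a * ENNReal.ofReal X + b * ENNReal.ofReal (|C| * X ^ (1 + J)) := by
        refine add_le_add le_rfl (mul_le_mul le_rfl (ENNReal.ofReal_le_ofReal ?_) bot_le bot_le)
        exact mul_le_mul_of_nonneg_right (le_abs_self C) (by positivity)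
    _ = ENNReal.ofReal ((1 + |C|) * X ^ (1 + p / 2)) := by
        rw [ha, hb, ← ENNReal.ofReal_mul (Real.rpow_nonneg hX0.le _),
          ← ENNReal.ofReal_mul (Real.rpow_nonneg hX0.le _),
          ← ENNReal.ofReal_add (by positivity) (by positivity)]
        congr 1
        have h3 : X ^ (1 + p / 2) = X * X ^ (p / 2) := by
          rw [Real.rpow_add hX0, Real.rpow_one]
        have h4 : X ^ (p / 2 - J) * X ^ (1 + J) = X * X ^ (p / 2) := by
          rw [Real.rpow_sub hX0, Real.rpow_natCast, pow_add, pow_one]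
          have h5 : X ^ J ≠ 0 := (pow_pos hX0 J).ne'
          field_simp
        rw [h3, show X ^ (p / 2) * X + X ^ (p / 2 - J) * (|C| * X ^ (1 + J)) =
          X * X ^ (p / 2) + |C| * (X ^ (p / 2 - J) * X ^ (1 + J)) by ring, h4]
        ring

end Pool.Agent.Helper43.MM
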